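import Pool.Agent.H62.N6.F0.IsK
import Pool.Agent.H62.N6.F0.IsP
import Pool.Agent.H62.N6.F0.Mono
import Pool.Agent.H62.N6.F0.Seq
import Pool.Agent.H62.N6.F0.Red
import Pool.Agent.H62.N6.F0.Cls
import Pool.Agent.H62.N6.F0.Prs
import Pool.Agent.H62.N6.F0.Expo
import Pool.Agent.H62.N6.F0.Lim

/-! # BLOCK F0: the nonstandard frame (all statements are in the folder F0). -/
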