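import Pool.Agent.H62.N6.BlkF
import Pool.Agent.H37.DTA.DetLem

set_option autoImplicit false

/-! # BLOCK D (helper37): the determinant lemma.  The proof is in `Pool/Agent/H37/DTA/`. -/

open MvPolynomial Filter

open scoped BigOperators

namespace Pool.Agent.H62.N6

/-- DETERMINANT LEMMA.  (`L_{Pbar,ξ}(n) ≤ (ρ c + e) n^m`, `c = liminf h_P/D^m > 0`, all points of `S` in one class modulo each prime of the list.) -/
theorem det_lemma {U : Ultrafilter ℕ} {B : ℕ → ℕ} (hB : Tendsto B (U : Filter ℕ) atTop)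
    {σ : Type} [Fintype σ] {K : Type} [Field K] {φ : (ℕ → ℤ) →+* K} (hK : IsK U φ)
    {P : Ideal (MvPolynomial σ K)} {m : ℕ} (hm : 1 ≤ m) (hdim : HasDim P m)
    {S : ℕ → Finset (σ → ℤ)} (hV : Van U φ S P) (hbox : InBox B S)
    (L : List (PC σ)) (hL : ∀ c ∈ L, c.Ok U B S) (hdis : Dis U L)
    {ρ : ℝ} (hρ : 0 < ρ) (hloc : ∀ c ∈ L, LocB U φ P m ρ c)
    (hsum : ρ < (L.map PC.β).sum ^ m) :
    ∃ F : MvPolynomial σ K, F ∉ P ∧ VanF U φ S F := by
  obtain ⟨c, hc, hlim⟩ := exists_isLim hdim.1 hdim.2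
  exact Pool.Agent.H37.DTA.det_lem hB hK hm hc hlim hV hbox L hL hdis hρ hloc hsum

end Pool.Agent.H62.N6
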