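import Pool.Agent.H62.N6.BlkA
import Pool.Agent.H62.N6.BlkF

set_option autoImplicit false

/-! # BLOCK L: the local bound at a good prime.

PROOF of `locB`. `exists_isP` gives `k`, `ψ`; `p → ∞` (`size`, `0 < β`, `B → ∞`), so `CharZero k`.  Choose `z_j ∈ S_j`; `ptS ψ c.ξ = ptS ψ z` (`cls`, `hψ.ker`).
`Sol`: `F_n ∈ P` vanishes at `z`, so `∑ ε_i z_i^n = 0` for `U`-many `j` (`hK.ker`), apply `ψ`.  `N(z) ≠ 0` in `k` (`hNp`), so `Cone`.
`redI φ ψ P` contains `pF k ε n` (`MvPolynomial.map` of `pF`), and `lin h_l - C (eval (ptS ψ z) (lin h_l))`: `lin h_l - C u_l ∈ P` vanishes at `z`, so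
`u_l = φ (lin h_l (z))` and `lin h_l - C (sequence) ` is in the comap.  `app` for `I = redI φ ψ P`, `r = m` (`BigO` from `hF_redI_le`): `d`; by
`IsLim.le_of_lowB` `d ≤ c`, and `Kap m ^ m * d ≤ Kap m ^ m * c`. -/

open MvPolynomial Filter

open scoped BigOperators

namespace Pool.Agent.H62.N6

theorem map_pF {R A : Type} [CommRing R] [CommRing A] {σ : Type} [Fintype σ] (φ : R →+* A)
    (ε : σ → ℤ) (n : ℕ) : MvPolynomial.map φ (pF R ε n) = pF A ε n := by
  simp [pF]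

theorem map_lin {R A : Type} [CommRing R] [CommRing A] {σ : Type} [Fintype σ] (φ : R →+* A)
    (c : σ → ℤ) : MvPolynomial.map φ (lin R c) = lin A c := by
  simp [lin]

/-- integer polynomials at sequences of points -/
theorem aeval_ptS {A : Type} [CommRing A] {σ : Type} (φ : (ℕ → ℤ) →+* A) (G : MvPolynomial σ ℤ)
    (z : ℕ → σ → ℤ) : aeval (ptS φ z) G = φ fun j => eval (z j) G := by
  induction G using MvPolynomial.induction_on with
  | C a =>
    have : (fun j : ℕ => eval (z j) (C a : MvPolynomial σ ℤ)) = ((a : ℤ) : ℕ → ℤ) := by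
      funext j
      simp
    rw [this, map_intCast]
    simp
  | add p q hp hq =>
    rw [map_add, hp, hq, ← map_add]
    congr 1
    funext j
    simp
  | mul_X p i hp =>
    rw [map_mul, hp, aeval_X]
    have : (fun j : ℕ => eval (z j) (p * X i)) = (fun j => eval (z j) p) * fun j => z j i := by
      funext j
      simp
    rw [this, map_mul]
    rfl

theorem eval_map_int {A : Type} [CommRing A] {σ : Type} (x : σ → A) (G : MvPolynomial σ ℤ) :
    eval x (MvPolynomial.map (Int.castRingHom A) G) = aeval x G := by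
  rw [eval_map, aeval_def]
  congr 1

/-- the primes of a `PC` record tend to infinity -/
theorem PC.Ok.tendsto {U : Ultrafilter ℕ} {B : ℕ → ℕ} (hB : Tendsto B (U : Filter ℕ) atTop)
    {σ : Type} {S : ℕ → Finset (σ → ℤ)} {c : PC σ} (hc : c.Ok U B S) :
    Tendsto c.p (U : Filter ℕ) atTop := by
  have h1 : Tendsto (fun j => ((B j : ℕ) : ℝ) ^ c.β) (U : Filter ℕ) atTop :=
    (tendsto_rpow_atTop hc.pos).comp (tendsto_natCast_atTop_atTop.comp hB)
  have h2 : Tendsto (fun j => ((c.p j : ℕ) : ℝ)) (U : Filter ℕ) atTop :=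
    tendsto_atTop_mono' _ hc.size h1
  exact tendsto_natCast_atTop_iff.1 h2

theorem locB {U : Ultrafilter ℕ} {B : ℕ → ℕ} (hB : Tendsto B (U : Filter ℕ) atTop)
    {σ : Type} [Fintype σ] {K : Type} [Field K] {φ : (ℕ → ℤ) →+* K} (hK : IsK U φ)
    (ε : σ → ℤ) {f : ℕ} (h : Fin f → σ → ℤ) (N : MvPolynomial σ ℤ)
    (hN : ∀ (k : Type) [Field k] [CharZero k] (ξ : σ → k), Sol ε ξ →
      aeval ξ N ≠ 0 → Cone ε ξ h)
    {P : Ideal (MvPolynomial σ K)} {m : ℕ} (hm : 1 ≤ m) (hdim : HasDim P m)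
    (hP : ∀ n, 1 ≤ n → n ≤ 4 → pF K ε n ∈ P) (u : Fin f → K)
    (hu : ∀ l, lin K (h l) - C (u l) ∈ P)
    {S : ℕ → Finset (σ → ℤ)} (hV : Van U φ S P)
    (hne : ∀ᶠ j in (U : Filter ℕ), (S j).Nonempty) (c : PC σ) (hc : c.Ok U B S)
    (hNp : ∀ᶠ j in (U : Filter ℕ), ∀ z ∈ S j, ¬ (c.p j : ℤ) ∣ eval z N) :
    LocB U φ P m (Kap m ^ m) c := by
  classical
  obtain ⟨k, fk, ψ, hψ⟩ := exists_isP U c.p hc.prime
  have : CharZero k := hψ.charZero (hc.tendsto hB)
  refine ⟨k, fk, ψ, hψ, ?_⟩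
  intro d hd
  -- a sequence of points
  let z : ℕ → σ → ℤ := fun j => if h : (S j).Nonempty then h.choose else 0
  have hz : ∀ᶠ j in (U : Filter ℕ), z j ∈ S j := by
    filter_upwards [hne] with j hj
    simp only [z, dif_pos hj]
    exact hj.choose_spec
  have hξz : ptS ψ z = ptS ψ c.ξ := by
    refine ptS_eq hψ ?_
    filter_upwards [hz, hc.cls] with j h1 h2 i using h2 _ h1 i
  -- transfer of integer relations
  have htr : ∀ G : MvPolynomial σ ℤ, aeval (ptS φ z) G = 0 → aeval (ptS ψ z) G = 0 := by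
    intro G hG
    rw [aeval_ptS, hK.ker] at hG
    rw [aeval_ptS, hψ.ker]
    filter_upwards [hG] with j hj
    rw [hj]
    exact dvd_zero _
  have hSol : Sol ε (ptS ψ c.ξ) := by
    intro n h1 h4
    rw [← hξz]
    have h := hV _ (hP n h1 h4) z hz
    rw [← map_pF (Int.castRingHom K) ε n, eval_map_int] at h
    have h' := htr _ h
    rw [← eval_map_int, map_pF] at h'
    simpa [pF] using h'
  have hNz : aeval (ptS ψ c.ξ) N ≠ 0 := by
    rw [← hξz, aeval_ptS]
    intro h0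
    rw [hψ.ker] at h0
    obtain ⟨j, h1, h2, h3⟩ := (h0.and (hz.and hNp)).exists
    exact h3 _ h2 h1
  have hcone : Cone ε (ptS ψ c.ξ) h := hN k _ hSol hNz
  have hI : ∀ n, 1 ≤ n → n ≤ 4 → pF k ε n ∈ redI φ ψ P := by
    intro n h1 h4
    rw [← map_pF ψ ε n]
    refine Ideal.mem_map_of_mem _ ?_
    rw [Ideal.mem_comap, map_pF]
    exact hP n h1 h4
  have hlinz : ∀ (A : Type) [CommRing A] (χ : (ℕ → ℤ) →+* A) (l : Fin f),
      eval (ptS χ z) (lin A (h l)) = χ fun j => eval (z j) (lin ℤ (h l)) := by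
    intro A _ χ l
    rw [← map_lin (Int.castRingHom A) (h l), eval_map_int, aeval_ptS]
  have hh : ∀ l, lin k (h l) - C (eval (ptS ψ c.ξ) (lin k (h l))) ∈ redI φ ψ P := by
    intro l
    have h1 := hV _ (hu l) z hz
    rw [map_sub, eval_C, sub_eq_zero, hlinz K φ l] at h1
    have e1 : lin k (h l) - C (eval (ptS ψ c.ξ) (lin k (h l)))
        = MvPolynomial.map ψ (lin (ℕ → ℤ) (h l) - C fun j => eval (z j) (lin ℤ (h l))) := by
      rw [← hξz, hlinz k ψ l, map_sub, map_lin, map_C]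
    rw [e1]
    refine Ideal.mem_map_of_mem _ ?_
    rw [Ideal.mem_comap, map_sub, map_lin, map_C, h1]
    exact hu l
  obtain ⟨d', h0, hlow, hupp⟩ := app ε (ptS ψ c.ξ) hSol h hcone (redI φ ψ P) hI hh m hm
    (hdim.1.mono (hF_redI_le hK hc.prime hψ P))
  have hdd : d' ≤ d := hd.le_of_lowB (hF_redI_le hK hc.prime hψ P) hlow
  exact hupp.mono (mul_le_mul_of_nonneg_left hdd (pow_nonneg (Kap_pos m).le m))

end Pool.Agent.H62.N6
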