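import Pool.Agent.H62.N6.BlkR

set_option autoImplicit false

/-! # BLOCK A: application of Lemma R to the polar forms.

PROOF of `app`. Put `v_i = z_i - ξ_i` and `q_{a,b} = ∑ ε_i ξ_i^a (X i - C ξ_i)^b` (translated polar form).  `Sol ε ξ` gives
`F_1 = q_{01}`, `F_2 = 2 q_{11} + q_{02}`, `F_3 = 3 q_{21} + 3 q_{12} + q_{03}`, `F_4 = 4 q_{31} + 6 q_{22} + 4 q_{13} + q_{04}`.
`l = [(q11,1,2), (q21,1,2), (q31,1,2), (q12,2,3), (q22,2,3), (q13,3,4)]`: `Chn ξ I l`.  In the end `I + (θ's)` contains all `q_{a,b}`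
(`b ≥ 1`, `a + b ≤ 4`) and `lin h_l (v)`; the automorphism `X i ↦ X i - C (ξ i)` (`aeval`) maps `coneI` into it and `(X)^M` onto `m_ξ^M`. -/

open MvPolynomial Filter

open scoped BigOperators

namespace Pool.Agent.H62.N6

theorem Kap_seven (r : ℕ) : Kap (r + 7) = 0.5 := rfl

theorem rhoL_le (r : ℕ) (hr : 1 ≤ r) :
    rhoL [(1, 2), (1, 2), (1, 2), (2, 3), (2, 3), (3, 4)] r ≤ Kap r ^ r := by
  rcases r with _ | _ | _ | _ | _ | _ | _ | r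
  · omega
  · norm_num [rhoL, Kap]
  · norm_num [rhoL, Kap]
  · norm_num [rhoL, Kap]
  · norm_num [rhoL, Kap]
  · norm_num [rhoL, Kap]
  · norm_num [rhoL, Kap]
  · have h1 : rhoL [(1, 2), (1, 2), (1, 2), (2, 3), (2, 3), (3, 4)] (r + 7) = 0 := by
      simp [rhoL]
    have h2 : r + 1 + 1 + 1 + 1 + 1 + 1 + 1 = r + 7 := rfl
    rw [h2, h1, Kap_seven]
    positivity

theorem Kap_pos (r : ℕ) : 0 < Kap r := by
  rcases r with _ | _ | _ | _ | _ | _ | _ | r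
  · norm_num [Kap]
  · norm_num [Kap]
  · norm_num [Kap]
  · norm_num [Kap]
  · norm_num [Kap]
  · norm_num [Kap]
  · norm_num [Kap]
  · change 0 < Kap (r + 7)
    rw [Kap_seven]
    norm_num

theorem Kap_succ_le (r : ℕ) : Kap (r + 1) ≤ Kap r := by
  rcases r with _ | _ | _ | _ | _ | _ | _ | r
  · norm_num [Kap]
  · norm_num [Kap]
  · norm_num [Kap]
  · norm_num [Kap]
  · norm_num [Kap]
  · norm_num [Kap]
  · norm_num [Kap]
  · change Kap (r + 1 + 7) ≤ Kap (r + 7)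
    rw [Kap_seven, Kap_seven]

theorem Kap_anti {r s : ℕ} (h : r ≤ s) : Kap s ≤ Kap r :=
  antitone_nat_of_succ_le Kap_succ_le h

variable {k : Type} [Field k] {σ : Type} [Fintype σ]

/-- translated polar form -/
noncomputable def qab (ε : σ → ℤ) (ξ : σ → k) (a b : ℕ) : MvPolynomial σ k :=
  ∑ i, C ((ε i : k) * ξ i ^ a) * (X i - C (ξ i)) ^ b

theorem qab_mem (ε : σ → ℤ) (ξ : σ → k) (a : ℕ) {b w : ℕ} (h : w ≤ b) :
    qab ε ξ a b ∈ mI ξ ^ w := by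
  refine Ideal.sum_mem _ fun i _ => Ideal.mul_mem_left _ _ ?_
  have h1 : (X i - C (ξ i) : MvPolynomial σ k) ∈ mI ξ := Ideal.subset_span ⟨i, rfl⟩
  exact Ideal.pow_le_pow_right h (Ideal.pow_mem_pow h1 b)

theorem totalDegree_qab (ε : σ → ℤ) (ξ : σ → k) (a b : ℕ) :
    (qab ε ξ a b).totalDegree ≤ b := by
  refine totalDegree_finsetSum_le fun i _ => ?_
  refine (totalDegree_mul _ _).trans ?_
  rw [totalDegree_C, zero_add]
  refine (totalDegree_pow _ _).trans ?_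
  have h1 := Pool.H76.LR.totalDegree_X_sub_C_le ξ i
  calc b * (X i - C (ξ i) : MvPolynomial σ k).totalDegree ≤ b * 1 := Nat.mul_le_mul_left _ h1
    _ = b := mul_one b

theorem C_sum_sol (ε : σ → ℤ) (ξ : σ → k) (hξ : Sol ε ξ) {n : ℕ} (h1 : 1 ≤ n) (h4 : n ≤ 4) :
    ∑ i, (C (ε i : k) * C (ξ i) ^ n : MvPolynomial σ k) = 0 := by
  have h := hξ n h1 h4
  have h2 : ∑ i, (C (ε i : k) * C (ξ i) ^ n : MvPolynomial σ k) =
      C (∑ i, (ε i : k) * ξ i ^ n) := by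
    rw [map_sum]
    exact Finset.sum_congr rfl fun i _ => by rw [map_mul, map_pow]
  rw [h2, h, C_0]

theorem pF_one (ε : σ → ℤ) (ξ : σ → k) (hξ : Sol ε ξ) : pF k ε 1 = qab ε ξ 0 1 := by
  have h0 := C_sum_sol ε ξ hξ (n := 1) (by norm_num) (by norm_num)
  rw [← add_zero (qab ε ξ 0 1), ← h0]
  unfold pF qab
  rw [← Finset.sum_add_distrib]
  refine Finset.sum_congr rfl fun i _ => ?_
  rw [map_mul, map_pow]
  ring

theorem pF_two (ε : σ → ℤ) (ξ : σ → k) (hξ : Sol ε ξ) :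
    pF k ε 2 = 2 * qab ε ξ 1 1 + qab ε ξ 0 2 := by
  have h0 := C_sum_sol ε ξ hξ (n := 2) (by norm_num) (by norm_num)
  rw [← add_zero (2 * qab ε ξ 1 1 + qab ε ξ 0 2), ← h0]
  unfold pF qab
  rw [Finset.mul_sum, ← Finset.sum_add_distrib, ← Finset.sum_add_distrib]
  refine Finset.sum_congr rfl fun i _ => ?_
  simp only [map_mul, map_pow]
  ring

theorem pF_three (ε : σ → ℤ) (ξ : σ → k) (hξ : Sol ε ξ) :
    pF k ε 3 = 3 * qab ε ξ 2 1 + 3 * qab ε ξ 1 2 + qab ε ξ 0 3 := by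
  have h0 := C_sum_sol ε ξ hξ (n := 3) (by norm_num) (by norm_num)
  rw [← add_zero (3 * qab ε ξ 2 1 + 3 * qab ε ξ 1 2 + qab ε ξ 0 3), ← h0]
  unfold pF qab
  rw [Finset.mul_sum, Finset.mul_sum, ← Finset.sum_add_distrib, ← Finset.sum_add_distrib,
    ← Finset.sum_add_distrib]
  refine Finset.sum_congr rfl fun i _ => ?_
  simp only [map_mul, map_pow]
  ring

theorem pF_four (ε : σ → ℤ) (ξ : σ → k) (hξ : Sol ε ξ) :
    pF k ε 4 = 4 * qab ε ξ 3 1 + 6 * qab ε ξ 2 2 + 4 * qab ε ξ 1 3 + qab ε ξ 0 4 := by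
  have h0 := C_sum_sol ε ξ hξ (n := 4) (by norm_num) (by norm_num)
  rw [← add_zero (4 * qab ε ξ 3 1 + 6 * qab ε ξ 2 2 + 4 * qab ε ξ 1 3 + qab ε ξ 0 4), ← h0]
  unfold pF qab
  rw [Finset.mul_sum, Finset.mul_sum, Finset.mul_sum, ← Finset.sum_add_distrib,
    ← Finset.sum_add_distrib, ← Finset.sum_add_distrib, ← Finset.sum_add_distrib]
  refine Finset.sum_congr rfl fun i _ => ?_
  simp only [map_mul, map_pow]
  ring

omit [Fintype σ] in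
theorem mem_of_num_mul [CharZero k] {A : Ideal (MvPolynomial σ k)} {q : MvPolynomial σ k} (n : ℕ)
    (hn : n ≠ 0) (h : (n : MvPolynomial σ k) * q ∈ A) : q ∈ A := by
  have h1 : q = C ((n : k)⁻¹) * ((n : MvPolynomial σ k) * q) := by
    have h2 : (n : MvPolynomial σ k) = C (n : k) := by simp
    rw [h2, ← mul_assoc, ← C_mul, inv_mul_cancel₀ (by exact_mod_cast hn), C_1, one_mul]
  rw [h1]
  exact Ideal.mul_mem_left _ _ h

/-- Steps: `A` contains the equations. -/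
theorem step11 [CharZero k] (ε : σ → ℤ) (ξ : σ → k) {A B : Ideal (MvPolynomial σ k)}
    (hF2 : 2 * qab ε ξ 1 1 + qab ε ξ 0 2 ∈ B) (hAB : mI ξ ^ 2 ≤ A) (hBA : B ≤ A) :
    qab ε ξ 1 1 ∈ A := by
  refine mem_of_num_mul 2 (by norm_num) ?_
  have e : ((2 : ℕ) : MvPolynomial σ k) * qab ε ξ 1 1 =
      (2 * qab ε ξ 1 1 + qab ε ξ 0 2) - qab ε ξ 0 2 := by
    push_cast; ring
  rw [e]
  exact Ideal.sub_mem _ (hBA hF2) (hAB (qab_mem ε ξ 0 le_rfl))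

omit [Fintype σ] in
theorem step3 [CharZero k] {A : Ideal (MvPolynomial σ k)} {x y z : MvPolynomial σ k}
    (h : 3 * x + 3 * y + z ∈ A) (hy : y ∈ A) (hz : z ∈ A) : x ∈ A := by
  refine mem_of_num_mul 3 (by norm_num) ?_
  have e : ((3 : ℕ) : MvPolynomial σ k) * x = (3 * x + 3 * y + z) - 3 * y - z := by
    push_cast; ring
  rw [e]
  exact Ideal.sub_mem _ (Ideal.sub_mem _ h (Ideal.mul_mem_left _ _ hy)) hz

omit [Fintype σ] in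
theorem step3' [CharZero k] {A : Ideal (MvPolynomial σ k)} {x y z : MvPolynomial σ k}
    (h : 3 * x + 3 * y + z ∈ A) (hx : x ∈ A) (hz : z ∈ A) : y ∈ A := by
  refine mem_of_num_mul 3 (by norm_num) ?_
  have e : ((3 : ℕ) : MvPolynomial σ k) * y = (3 * x + 3 * y + z) - 3 * x - z := by
    push_cast; ring
  rw [e]
  exact Ideal.sub_mem _ (Ideal.sub_mem _ h (Ideal.mul_mem_left _ _ hx)) hz

omit [Fintype σ] in
theorem step4 [CharZero k] {A : Ideal (MvPolynomial σ k)} {x y z w : MvPolynomial σ k}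
    (h : 4 * x + 6 * y + 4 * z + w ∈ A) (hy : y ∈ A) (hz : z ∈ A) (hw : w ∈ A) : x ∈ A := by
  refine mem_of_num_mul 4 (by norm_num) ?_
  have e : ((4 : ℕ) : MvPolynomial σ k) * x = (4 * x + 6 * y + 4 * z + w) - 6 * y - 4 * z - w := by
    push_cast; ring
  rw [e]
  exact Ideal.sub_mem _ (Ideal.sub_mem _ (Ideal.sub_mem _ h (Ideal.mul_mem_left _ _ hy))
    (Ideal.mul_mem_left _ _ hz)) hw

omit [Fintype σ] in
theorem step4' [CharZero k] {A : Ideal (MvPolynomial σ k)} {x y z w : MvPolynomial σ k}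
    (h : 4 * x + 6 * y + 4 * z + w ∈ A) (hx : x ∈ A) (hz : z ∈ A) (hw : w ∈ A) : y ∈ A := by
  refine mem_of_num_mul 6 (by norm_num) ?_
  have e : ((6 : ℕ) : MvPolynomial σ k) * y = (4 * x + 6 * y + 4 * z + w) - 4 * x - 4 * z - w := by
    push_cast; ring
  rw [e]
  exact Ideal.sub_mem _ (Ideal.sub_mem _ (Ideal.sub_mem _ h (Ideal.mul_mem_left _ _ hx))
    (Ideal.mul_mem_left _ _ hz)) hw

omit [Fintype σ] in
theorem step4'' [CharZero k] {A : Ideal (MvPolynomial σ k)} {x y z w : MvPolynomial σ k}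
    (h : 4 * x + 6 * y + 4 * z + w ∈ A) (hx : x ∈ A) (hy : y ∈ A) (hw : w ∈ A) : z ∈ A := by
  refine mem_of_num_mul 4 (by norm_num) ?_
  have e : ((4 : ℕ) : MvPolynomial σ k) * z = (4 * x + 6 * y + 4 * z + w) - 4 * x - 6 * y - w := by
    push_cast; ring
  rw [e]
  exact Ideal.sub_mem _ (Ideal.sub_mem _ (Ideal.sub_mem _ h (Ideal.mul_mem_left _ _ hx))
    (Ideal.mul_mem_left _ _ hy)) hw

theorem polar_mem (ε : σ → ℤ) (ξ : σ → k) {A : Ideal (MvPolynomial σ k)}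
    (hF1 : qab ε ξ 0 1 ∈ A) (hF2 : 2 * qab ε ξ 1 1 + qab ε ξ 0 2 ∈ A)
    (hF3 : 3 * qab ε ξ 2 1 + 3 * qab ε ξ 1 2 + qab ε ξ 0 3 ∈ A)
    (hF4 : 4 * qab ε ξ 3 1 + 6 * qab ε ξ 2 2 + 4 * qab ε ξ 1 3 + qab ε ξ 0 4 ∈ A)
    (h11 : qab ε ξ 1 1 ∈ A) (h21 : qab ε ξ 2 1 ∈ A) (h31 : qab ε ξ 3 1 ∈ A)
    (h12 : qab ε ξ 1 2 ∈ A) (h22 : qab ε ξ 2 2 ∈ A) (h13 : qab ε ξ 1 3 ∈ A)
    (a b : ℕ) (hb : 1 ≤ b) (hab : a + b ≤ 4) : qab ε ξ a b ∈ A := by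
  have n02 : qab ε ξ 0 2 ∈ A := by
    have e : qab ε ξ 0 2 = (2 * qab ε ξ 1 1 + qab ε ξ 0 2) - 2 * qab ε ξ 1 1 := by ring
    rw [e]
    exact Ideal.sub_mem _ hF2 (Ideal.mul_mem_left _ _ h11)
  have n03 : qab ε ξ 0 3 ∈ A := by
    have e : qab ε ξ 0 3 = (3 * qab ε ξ 2 1 + 3 * qab ε ξ 1 2 + qab ε ξ 0 3)
        - 3 * qab ε ξ 2 1 - 3 * qab ε ξ 1 2 := by ring
    rw [e]
    exact Ideal.sub_mem _ (Ideal.sub_mem _ hF3 (Ideal.mul_mem_left _ _ h21))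
      (Ideal.mul_mem_left _ _ h12)
  have n04 : qab ε ξ 0 4 ∈ A := by
    have e : qab ε ξ 0 4 = (4 * qab ε ξ 3 1 + 6 * qab ε ξ 2 2 + 4 * qab ε ξ 1 3 + qab ε ξ 0 4)
        - 4 * qab ε ξ 3 1 - 6 * qab ε ξ 2 2 - 4 * qab ε ξ 1 3 := by ring
    rw [e]
    exact Ideal.sub_mem _ (Ideal.sub_mem _ (Ideal.sub_mem _ hF4
      (Ideal.mul_mem_left _ _ h31)) (Ideal.mul_mem_left _ _ h22)) (Ideal.mul_mem_left _ _ h13)
  have hcases : (a = 0 ∧ b = 1) ∨ (a = 1 ∧ b = 1) ∨ (a = 2 ∧ b = 1) ∨ (a = 3 ∧ b = 1) ∨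
      (a = 0 ∧ b = 2) ∨ (a = 1 ∧ b = 2) ∨ (a = 2 ∧ b = 2) ∨ (a = 0 ∧ b = 3) ∨
      (a = 1 ∧ b = 3) ∨ (a = 0 ∧ b = 4) := by omega
  rcases hcases with ⟨rfl, rfl⟩ | ⟨rfl, rfl⟩ | ⟨rfl, rfl⟩ | ⟨rfl, rfl⟩ | ⟨rfl, rfl⟩ | ⟨rfl, rfl⟩ |
    ⟨rfl, rfl⟩ | ⟨rfl, rfl⟩ | ⟨rfl, rfl⟩ | ⟨rfl, rfl⟩
  · exact hF1
  · exact h11
  · exact h21
  · exact h31
  · exact n02
  · exact h12
  · exact h22
  · exact n03
  · exact h13
  · exact n04

theorem pow_le_of_polar (ε : σ → ℤ) (ξ : σ → k) {f : ℕ} (h : Fin f → σ → ℤ)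
    {A : Ideal (MvPolynomial σ k)} (hall : ∀ a b : ℕ, 1 ≤ b → a + b ≤ 4 → qab ε ξ a b ∈ A)
    (hh : ∀ l, lin k (h l) - C (eval ξ (lin k (h l))) ∈ A) {M : ℕ}
    (hM : Ideal.span (Set.range (X : σ → MvPolynomial σ k)) ^ M ≤ coneI ε ξ h) :
    mI ξ ^ M ≤ A := by
  have h1 : mI ξ = (Ideal.span (Set.range (X : σ → MvPolynomial σ k))).map
      (aeval (fun i => X i - C (ξ i)) : MvPolynomial σ k →ₐ[k] MvPolynomial σ k).toRingHom := by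
    rw [Ideal.map_span, ← Set.range_comp]
    unfold mI
    congr 1
    ext x
    simp
  rw [h1, ← Ideal.map_pow]
  refine (Ideal.map_mono hM).trans ?_
  unfold coneI
  rw [Ideal.map_span, Ideal.span_le]
  rintro _ ⟨F, hF, rfl⟩
  rcases hF with ⟨a, b, hb1, hab, rfl⟩ | ⟨l, rfl⟩
  · have e : (aeval (fun i => X i - C (ξ i)) : MvPolynomial σ k →ₐ[k] MvPolynomial σ k)
        (pab ε ξ a b) = qab ε ξ a b := by
      unfold pab qab
      rw [map_sum]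
      refine Finset.sum_congr rfl fun i _ => ?_
      rw [map_mul, map_pow, aeval_X, algHom_C]
      rfl
    have h2 := hall a b hb1 hab
    rw [← e] at h2
    exact h2
  · have e : (aeval (fun i => X i - C (ξ i)) : MvPolynomial σ k →ₐ[k] MvPolynomial σ k)
        (lin k (h l)) = lin k (h l) - C (eval ξ (lin k (h l))) := by
      unfold lin
      rw [map_sum, map_sum, map_sum, ← Finset.sum_sub_distrib]
      refine Finset.sum_congr rfl fun i _ => ?_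
      rw [map_mul, aeval_X, algHom_C, map_mul, eval_C, eval_X, map_mul, mul_sub]
      rfl
    have h2 := hh l
    rw [← e] at h2
    exact h2

theorem chn_polar [CharZero k] (ε : σ → ℤ) (ξ : σ → k) {f : ℕ} (h : Fin f → σ → ℤ)
    (I : Ideal (MvPolynomial σ k))
    (hF1 : qab ε ξ 0 1 ∈ I) (hF2 : 2 * qab ε ξ 1 1 + qab ε ξ 0 2 ∈ I)
    (hF3 : 3 * qab ε ξ 2 1 + 3 * qab ε ξ 1 2 + qab ε ξ 0 3 ∈ I)
    (hF4 : 4 * qab ε ξ 3 1 + 6 * qab ε ξ 2 2 + 4 * qab ε ξ 1 3 + qab ε ξ 0 4 ∈ I)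
    (hh : ∀ l, lin k (h l) - C (eval ξ (lin k (h l))) ∈ I) {M : ℕ}
    (hM : Ideal.span (Set.range (X : σ → MvPolynomial σ k)) ^ M ≤ coneI ε ξ h) :
    Chn ξ I [(qab ε ξ 1 1, 1, 2), (qab ε ξ 2 1, 1, 2), (qab ε ξ 3 1, 1, 2),
      (qab ε ξ 1 2, 2, 3), (qab ε ξ 2 2, 2, 3), (qab ε ξ 1 3, 3, 4)] := by
  have sp : ∀ x : MvPolynomial σ k, ∀ A : Ideal (MvPolynomial σ k), x ∈ A ⊔ Ideal.span {x} :=
    fun x A => Ideal.mem_sup_right (Ideal.mem_span_singleton_self x)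
  have o : ∀ (A : Ideal (MvPolynomial σ k)) (a b w : ℕ), w ≤ b →
      qab ε ξ a b ∈ mI ξ ^ w ⊔ A := fun A a b w h => Ideal.mem_sup_left (qab_mem ε ξ a h)
  simp only [Chn]
  generalize hI1 : I ⊔ Ideal.span {qab ε ξ 1 1} = I1
  have l1 : I ≤ I1 := hI1 ▸ le_sup_left
  have m11 : qab ε ξ 1 1 ∈ I1 := hI1 ▸ sp _ _
  generalize hI2 : I1 ⊔ Ideal.span {qab ε ξ 2 1} = I2
  have l2 : I1 ≤ I2 := hI2 ▸ le_sup_left
  have m21 : qab ε ξ 2 1 ∈ I2 := hI2 ▸ sp _ _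
  generalize hI3 : I2 ⊔ Ideal.span {qab ε ξ 3 1} = I3
  have l3 : I2 ≤ I3 := hI3 ▸ le_sup_left
  have m31 : qab ε ξ 3 1 ∈ I3 := hI3 ▸ sp _ _
  generalize hI4 : I3 ⊔ Ideal.span {qab ε ξ 1 2} = I4
  have l4 : I3 ≤ I4 := hI4 ▸ le_sup_left
  have m12 : qab ε ξ 1 2 ∈ I4 := hI4 ▸ sp _ _
  generalize hI5 : I4 ⊔ Ideal.span {qab ε ξ 2 2} = I5
  have l5 : I4 ≤ I5 := hI5 ▸ le_sup_left
  have m22 : qab ε ξ 2 2 ∈ I5 := hI5 ▸ sp _ _
  generalize hI6 : I5 ⊔ Ideal.span {qab ε ξ 1 3} = I6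
  have l6 : I5 ≤ I6 := hI6 ▸ le_sup_left
  have m13 : qab ε ξ 1 3 ∈ I6 := hI6 ▸ sp _ _
  have t11 : qab ε ξ 1 1 ∈ mI ξ ^ 2 ⊔ I := step11 ε ξ hF2 le_sup_left le_sup_right
  have t21 : qab ε ξ 2 1 ∈ mI ξ ^ 2 ⊔ I1 :=
    step3 (Ideal.mem_sup_right (l1 hF3)) (o I1 1 2 2 (by norm_num)) (o I1 0 3 2 (by norm_num))
  have t31 : qab ε ξ 3 1 ∈ mI ξ ^ 2 ⊔ I2 :=
    step4 (Ideal.mem_sup_right (l2 (l1 hF4))) (o I2 2 2 2 (by norm_num))
      (o I2 1 3 2 (by norm_num)) (o I2 0 4 2 (by norm_num))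
  have t12 : qab ε ξ 1 2 ∈ mI ξ ^ 3 ⊔ I3 :=
    step3' (Ideal.mem_sup_right (l3 (l2 (l1 hF3)))) (Ideal.mem_sup_right (l3 m21))
      (o I3 0 3 3 (by norm_num))
  have t22 : qab ε ξ 2 2 ∈ mI ξ ^ 3 ⊔ I4 :=
    step4' (Ideal.mem_sup_right (l4 (l3 (l2 (l1 hF4))))) (Ideal.mem_sup_right (l4 m31))
      (o I4 1 3 3 (by norm_num)) (o I4 0 4 3 (by norm_num))
  have t13 : qab ε ξ 1 3 ∈ mI ξ ^ 4 ⊔ I5 :=
    step4'' (Ideal.mem_sup_right (l5 (l4 (l3 (l2 (l1 hF4)))))) (Ideal.mem_sup_right (l5 (l4 m31)))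
      (Ideal.mem_sup_right m22) (o I5 0 4 4 (by norm_num))
  have lI : I ≤ I6 := l1.trans (l2.trans (l3.trans (l4.trans (l5.trans l6))))
  have hall := polar_mem ε ξ (lI hF1) (lI hF2) (lI hF3) (lI hF4)
    (l6 (l5 (l4 (l3 (l2 m11))))) (l6 (l5 (l4 (l3 m21)))) (l6 (l5 (l4 m31)))
    (l6 (l5 m12)) (l6 m22) m13
  have hend := pow_le_of_polar ε ξ h hall (fun l => lI (hh l)) hM
  exact ⟨le_rfl, by norm_num, totalDegree_qab _ _ _ _, t11,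
      le_rfl, by norm_num, totalDegree_qab _ _ _ _, t21,
      le_rfl, by norm_num, totalDegree_qab _ _ _ _, t31,
      by norm_num, by norm_num, totalDegree_qab _ _ _ _, t12,
      by norm_num, by norm_num, totalDegree_qab _ _ _ _, t22,
      by norm_num, by norm_num, totalDegree_qab _ _ _ _, t13, M, hend⟩

theorem app [CharZero k] (ε : σ → ℤ) (ξ : σ → k) (hξ : Sol ε ξ) {f : ℕ} (h : Fin f → σ → ℤ)
    (hc : Cone ε ξ h) (I : Ideal (MvPolynomial σ k))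
    (hI : ∀ n, 1 ≤ n → n ≤ 4 → pF k ε n ∈ I)
    (hh : ∀ l, lin k (h l) - C (eval ξ (lin k (h l))) ∈ I)
    (r : ℕ) (hr : 1 ≤ r) (hb : BigO (hF I) r) :
    ∃ d : ℝ, 0 ≤ d ∧ LowB (hF I) r d ∧ UppB (lF I ξ) r (Kap r ^ r * d) := by
  have hF1 := hI 1 (by norm_num) (by norm_num)
  have hF2 := hI 2 (by norm_num) (by norm_num)
  have hF3 := hI 3 (by norm_num) (by norm_num)
  have hF4 := hI 4 (by norm_num) (by norm_num)
  rw [pF_one ε ξ hξ] at hF1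
  rw [pF_two ε ξ hξ] at hF2
  rw [pF_three ε ξ hξ] at hF3
  rw [pF_four ε ξ hξ] at hF4
  obtain ⟨M, hM⟩ := hc
  have hchn := chn_polar ε ξ h I hF1 hF2 hF3 hF4 hh hM
  obtain ⟨d, hd, hlow, hupp⟩ := lemmaR ξ _ I hchn r I le_rfl hb
  refine ⟨d, hd, hlow, fun e he => ?_⟩
  filter_upwards [hupp e he] with n hn
  refine hn.trans ?_
  have h1 := rhoL_le r hr
  have h2 : (0 : ℝ) ≤ (n : ℝ) ^ r := by positivity
  refine mul_le_mul_of_nonneg_right ?_ h2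
  have h3 := mul_le_mul_of_nonneg_right h1 hd
  simp only [List.map_cons, List.map_nil]
  linarith

end Pool.Agent.H62.N6
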