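import Pool.Agent.H62.N6.Defs
import Pool.Agent.H76.LR.Basic
import Pool.Agent.H76.LR.Num
import Pool.Agent.H76.N6.Noe
import Pool.Agent.H76.N6.Low
import Pool.Agent.H76.N6.Upp
import Pool.Agent.H76.N6.Pri

set_option autoImplicit false

/-! # BLOCK H (helper76): Hilbert functions and dimension of arbitrary ideals.

INTERFACE (the statements used by the other blocks).  Helper modules: `Pool/Agent/H76/N6/...` or more files here.
PROOFS. `exists_hasDim`, `noether`: Noether normalisation of `R/I` (Mathlib `exists_finite_inj_algHom_of_fg`,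
`exists_integral_inj_algHom_of_quotient`), upper bound for `h_I` from the finitely many module generators (multiplication by `z_i` raises the degree in
`y` by a bounded amount), lower bound from the independence of the monomials in `y`.
`HasDim.lt`: `h_{P+(F)}(D) ≤ h_P(D) - h_P(D - deg F)` for `F ∉ P`, telescoping.  `exists_prime`: lying over for `k[y] → R/I` injective and integral. -/

open MvPolynomial Filter

open scoped BigOperators

namespace Pool.Agent.H62.N6

variable {k : Type} [Field k] {σ : Type} [Fintype σ]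

theorem finite_restrict (D : ℕ) : Module.Finite k (restrictTotalDegree σ k D) := by
  infer_instance

theorem hF_mono (I : Ideal (MvPolynomial σ k)) : Monotone (hF I) := by
  exact fun _ _ h => Pool.H76.LR.hI_mono I h

theorem hF_anti {I J : Ideal (MvPolynomial σ k)} (h : I ≤ J) (D : ℕ) : hF J D ≤ hF I D := by
  exact Pool.H76.LR.hI_anti h D

theorem hF_top (D : ℕ) : hF (⊤ : Ideal (MvPolynomial σ k)) D = 0 := by
  exact Pool.H76.LR.hI_top D

/-- The filtration by `(I : x)` and `I + (x)`. -/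
theorem hF_colon (I : Ideal (MvPolynomial σ k)) (x : MvPolynomial σ k) (D e : ℕ)
    (he : x.totalDegree ≤ e) :
    hF (I ⊔ Ideal.span {x}) (D + e) + hF (I.colon {x}) D ≤ hF I (D + e) := by
  have h1 := Pool.H76.LR.hI_colon (I := I) (J := I.colon {x}) x (fun b => by
    rw [Submodule.mem_colon_singleton, smul_eq_mul, mul_comm]) he (Nat.le_add_left e D)
  rw [Nat.add_sub_cancel] at h1
  exact h1

/-- The same for a prime ideal. -/
theorem hF_prime (I : Ideal (MvPolynomial σ k)) (hI : I.IsPrime) (x : MvPolynomial σ k)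
    (hx : x ∉ I) (D e : ℕ) (he : x.totalDegree ≤ e) :
    hF (I ⊔ Ideal.span {x}) (D + e) + hF I D ≤ hF I (D + e) := by
  have h1 := Pool.H76.LR.hI_prime (I := I) x hx he (Nat.le_add_left e D)
  rw [Nat.add_sub_cancel] at h1
  exact h1

theorem BigO.mono {h h' : ℕ → ℕ} {r : ℕ} (hb : BigO h r) (hle : ∀ n, h' n ≤ h n) : BigO h' r := by
  obtain ⟨C, hC⟩ := hb
  exact ⟨C, fun n => le_trans (by exact_mod_cast hle n) (hC n)⟩

/-- `I'(D+e) + I(D) ≤ I(D+e)`, `I = O(D^(r+1))` implies `I' = O(D^r)`. -/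
theorem bigO_step {h h' : ℕ → ℕ} {r e : ℕ} (he : 1 ≤ e) (hb : BigO h (r + 1))
    (hmono : Monotone h') (hrec : ∀ D, h' (D + e) + h D ≤ h (D + e)) : BigO h' r := by
  obtain ⟨C, hC⟩ := hb
  refine ⟨C * (1 + (e : ℝ)) ^ (r + 1), ?_⟩
  refine Pool.H76.LR.growth_drop (h := h) (h' := h') (δ := e) (s := r) hmono ?_ hC
  intro D hD
  have h1 := hrec (D - e)
  rwa [Nat.sub_add_cancel hD] at h1

theorem exists_hasDim (I : Ideal (MvPolynomial σ k)) (hI : I ≠ ⊤) : ∃ s, HasDim I s := by
  obtain ⟨s, y, hy, hG⟩ := exists_noether I hI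
  exact ⟨s, upper_of_integral I y hG, lower_of_indep I y hy⟩

theorem HasDim.ne_top {I : Ideal (MvPolynomial σ k)} {s : ℕ} (h : HasDim I s) : I ≠ ⊤ := by
  rintro rfl
  obtain ⟨_, c, hc, hD⟩ := h
  have h1 := hD 0
  rw [hF_top] at h1
  simp at h1
  linarith

theorem HasDim.le_of_bigO {I : Ideal (MvPolynomial σ k)} {s r : ℕ} (h : HasDim I s)
    (hb : BigO (hF I) r) : s ≤ r := by
  obtain ⟨_, c, hc, hD⟩ := h
  obtain ⟨C, hC⟩ := hb
  by_contra hcon
  push Not at hcon
  obtain ⟨n, hn⟩ := exists_nat_gt (C / c)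
  have h1 := (hD n).trans (hC n)
  have hp : (0 : ℝ) < (n : ℝ) + 1 := by positivity
  have h2 : ((n : ℝ) + 1) ^ (r + 1) ≤ ((n : ℝ) + 1) ^ s :=
    pow_le_pow_right₀ (by linarith [Nat.cast_nonneg (α := ℝ) n]) hcon
  have h3 : c * (((n : ℝ) + 1) ^ (r + 1)) ≤ C * ((n : ℝ) + 1) ^ r :=
    (mul_le_mul_of_nonneg_left h2 hc.le).trans h1
  have h4 : c * ((n : ℝ) + 1) * ((n : ℝ) + 1) ^ r ≤ C * ((n : ℝ) + 1) ^ r := by
    calc c * ((n : ℝ) + 1) * ((n : ℝ) + 1) ^ r = c * (((n : ℝ) + 1) ^ (r + 1)) := by ring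
      _ ≤ _ := h3
  have h5 : c * ((n : ℝ) + 1) ≤ C := le_of_mul_le_mul_right h4 (pow_pos hp r)
  rw [div_lt_iff₀ hc] at hn
  nlinarith

theorem HasDim.unique {I : Ideal (MvPolynomial σ k)} {s t : ℕ} (h : HasDim I s)
    (h' : HasDim I t) : s = t :=
  le_antisymm (h.le_of_bigO h'.1) (h'.le_of_bigO h.1)

theorem HasDim.mono {I J : Ideal (MvPolynomial σ k)} (hIJ : I ≤ J) {s t : ℕ} (h : HasDim I s)
    (h' : HasDim J t) : t ≤ s := by
  exact h'.le_of_bigO (h.1.mono (hF_anti hIJ))

/-- (D1) -/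
theorem HasDim.lt {P Q : Ideal (MvPolynomial σ k)} (hP : P.IsPrime) (hPQ : P < Q) {s t : ℕ}
    (h : HasDim P s) (h' : HasDim Q t) : t < s := by
  obtain ⟨x, hx, hx'⟩ := SetLike.exists_of_lt hPQ
  set e := max x.totalDegree 1 with he
  have hrec : ∀ D, hF (P ⊔ Ideal.span {x}) (D + e) + hF P D ≤ hF P (D + e) := fun D =>
    hF_prime P hP x hx' D e (le_max_left _ _)
  have hle : P ⊔ Ideal.span {x} ≤ Q :=
    sup_le hPQ.le (by rw [Ideal.span_singleton_le_iff_mem]; exact hx)
  cases s with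
  | succ r =>
    have h1 : BigO (hF (P ⊔ Ideal.span {x})) r :=
      bigO_step (le_max_right _ _) h.1 (hF_mono _) hrec
    have h2 : BigO (hF Q) r := h1.mono (hF_anti hle)
    exact Nat.lt_succ_of_le (h'.le_of_bigO h2)
  | zero =>
    exfalso
    obtain ⟨_, c, hc, hD⟩ := h'
    have hpos : ∀ D, 1 ≤ hF Q D := by
      intro D
      have h1 := hD D
      have h2 : 0 < c * ((D : ℝ) + 1) ^ t := by positivity
      have h3 : (0 : ℝ) < (hF Q D : ℝ) := lt_of_lt_of_le h2 h1
      exact_mod_cast h3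
    have hstep : ∀ n : ℕ, n ≤ hF P (n * e) := by
      intro n
      induction n with
      | zero => exact Nat.zero_le _
      | succ n ih =>
        have h1 := hrec (n * e)
        have h2 := hF_anti hle (n * e + e)
        have h3 := hpos (n * e + e)
        have h4 : (n + 1) * e = n * e + e := by ring
        rw [h4]
        omega
    obtain ⟨C, hC⟩ := h.1
    obtain ⟨n, hn⟩ := exists_nat_gt C
    have h1 : (n : ℝ) ≤ (hF P (n * e) : ℝ) := by exact_mod_cast hstep n
    have h2 := hC (n * e)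
    rw [pow_zero, mul_one] at h2
    linarith

/-- (D2) -/
theorem HasDim.exists_prime {I : Ideal (MvPolynomial σ k)} {s : ℕ} (h : HasDim I s) :
    ∃ Q : Ideal (MvPolynomial σ k), Q.IsPrime ∧ I ≤ Q ∧ HasDim Q s := by
  obtain ⟨s', y, hy, hG⟩ := exists_noether I h.ne_top
  have h' : HasDim I s' := ⟨upper_of_integral I y hG, lower_of_indep I y hy⟩
  obtain rfl := h.unique h'
  obtain ⟨Q, hQ, hIQ, hyQ⟩ := exists_prime_indep I y hy
  exact ⟨Q, hQ, hIQ, h.1.mono (hF_anti hIQ), lower_of_indep Q y hyQ⟩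

/-- Noether normalisation -/
theorem HasDim.noether {I : Ideal (MvPolynomial σ k)} {s : ℕ} (h : HasDim I s) :
    ∃ y : Fin s → MvPolynomial σ k,
      AlgebraicIndependent k (fun i => Ideal.Quotient.mk I (y i)) ∧
      ∀ i : σ, ∃ G : Polynomial (MvPolynomial (Fin s) k), G.Monic ∧
        (G.map (aeval y : MvPolynomial (Fin s) k →ₐ[k] MvPolynomial σ k).toRingHom).eval (X i)
          ∈ I := by
  obtain ⟨s', y, hy, hG⟩ := exists_noether I h.ne_top
  have h' : HasDim I s' := ⟨upper_of_integral I y hG, lower_of_indep I y hy⟩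
  obtain rfl := h.unique h'
  exact ⟨y, hy, hG⟩

/-- dimension = transcendence degree of the coordinate ring -/
theorem HasDim.trdeg {P : Ideal (MvPolynomial σ k)} (hP : P.IsPrime) {s : ℕ} (h : HasDim P s) :
    Algebra.trdeg k (MvPolynomial σ k ⧸ P) = s := by
  obtain ⟨y, hy, hG⟩ := h.noether
  exact trdeg_of_noether P hP y hy hG

end Pool.Agent.H62.N6
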