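import Pool.Agent.H62.N6.BlkH
import Pool.Agent.H78.N64.GlueG

set_option autoImplicit false

/-! # BLOCK G (helper78, helper34): geometry (paper, section 4), characteristic 0. -/

open MvPolynomial Filter

open scoped BigOperators

namespace Pool.Agent.H62.N6

/-- (G0), (G1), (G2) together. -/
theorem geo {K : Type} [Field K] [CharZero K] (P : Ideal (MvPolynomial (Fin 12) K))
    (hP : P.IsPrime) (hF : ∀ n, 1 ≤ n → n ≤ 4 → pF K sg n ∈ P)
    (hx : ∀ i j, sg i ≠ sg j → (X i - X j : MvPolynomial (Fin 12) K) ∉ P)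
    {D : ℕ} (hD : HasDim P D) (h6 : 6 ≤ D) :
    D ≤ 8 ∧ ∃ f : ℕ, D + f ≤ 10 ∧ ∃ (h : Fin f → Fin 12 → ℤ) (N : MvPolynomial (Fin 12) ℤ),
      MvPolynomial.map (Int.castRingHom K) N ∉ P ∧
      ∀ (k : Type) [Field k] [CharZero k] (ξ : Fin 12 → k), Sol sg ξ →
        aeval ξ N ≠ 0 → Cone sg ξ h :=
  N64Y.geo_glue P hP hF hx hD

end Pool.Agent.H62.N6
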