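import Pool.Agent.H62.N6.BlkH
import Pool.Agent.H76.LR.Main

set_option autoImplicit false

/-! # BLOCK R (helper76): LEMMA R.

PROOF (paper, section 1).  Induction on the list `l` (for all `J`, `r`), for fixed `l`, `r` Noetherian induction on `I`.
* `I = ⊤`: `d = 0`.  `r = 0`: `h_I` is eventually constant `= d` and `L_I(n+1) ≤ h_I(n)`.
* `l = []`, `r ≥ 1`: `L_I` is bounded (`m_ξ^M ≤ I`), `d = 0`.
* `I` not prime: `x, y ∉ I`, `x y ∈ I`: `I + (x)` and `(I : x)` are strictly larger, `lF_colon`, `hF_colon`, add the two `d`.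
* `I` prime, `θ ∈ I`: `J + (θ) ≤ I`, use the tail of the list with the same `r`.
* `I` prime, `θ ∉ I`: `I' = I + (θ)`; `hF_prime`, `bigO_step`, `lF_step`, the tail of the list with `r - 1`, then `lowB_sum`, `uppB_sum`:
  `d = d'/(δ r)`, `limsup L_I/n^r ≤ ρ' d'/(w r) = (δ/w) ρ' d`. -/

open MvPolynomial Filter

open scoped BigOperators

namespace Pool.Agent.H62.N6

variable {k : Type} [Field k] {σ : Type} [Fintype σ]

/-- `R/(I + m_ξ^n)` is finite dimensional. -/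
theorem finite_lF (I : Ideal (MvPolynomial σ k)) (ξ : σ → k) (n : ℕ) :
    Module.Finite k (MvPolynomial σ k ⧸ (I ⊔ mI ξ ^ n)) := by
  exact Pool.H76.LR.loc_finite ξ I n

theorem lF_zero (I : Ideal (MvPolynomial σ k)) (ξ : σ → k) : lF I ξ 0 = 0 := by
  exact Pool.H76.LR.LI_zero ξ I

theorem lF_mono (I : Ideal (MvPolynomial σ k)) (ξ : σ → k) : Monotone (lF I ξ) := by
  exact fun _ _ h => Pool.H76.LR.LI_mono ξ I h

theorem lF_anti {I J : Ideal (MvPolynomial σ k)} (h : I ≤ J) (ξ : σ → k) (n : ℕ) :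
    lF J ξ n ≤ lF I ξ n := by
  exact Pool.H76.LR.LI_anti ξ h n

/-- `R/(I + m_ξ^(n+1))` is spanned by the polynomials of degree at most `n`. -/
theorem lF_succ_le (I : Ideal (MvPolynomial σ k)) (ξ : σ → k) (n : ℕ) :
    lF I ξ (n + 1) ≤ hF I n := by
  exact Pool.H76.LR.LI_le_hI ξ I n

/-- General form: if `x B ⊆ A` then `dim R/A ≤ dim R/(A + (x)) + dim R/B`. -/
theorem finrank_quot_le (A B : Ideal (MvPolynomial σ k)) (x : MvPolynomial σ k)
    (hA : Module.Finite k (MvPolynomial σ k ⧸ A)) (hB : Module.Finite k (MvPolynomial σ k ⧸ B))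
    (h : ∀ b ∈ B, x * b ∈ A) :
    Module.finrank k (MvPolynomial σ k ⧸ A)
      ≤ Module.finrank k (MvPolynomial σ k ⧸ (A ⊔ Ideal.span {x}))
        + Module.finrank k (MvPolynomial σ k ⧸ B) := by
  exact Pool.H76.LR.finrank_colon x h

theorem lF_colon (I : Ideal (MvPolynomial σ k)) (ξ : σ → k) (x : MvPolynomial σ k) (n : ℕ) :
    lF I ξ n ≤ lF (I ⊔ Ideal.span {x}) ξ n + lF (I.colon {x}) ξ n := by
  refine Pool.H76.LR.LI_colon ξ x (fun b hb => ?_) n
  rw [Submodule.mem_colon_singleton, smul_eq_mul, mul_comm] at hb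
  exact hb

theorem lF_step (I : Ideal (MvPolynomial σ k)) (ξ : σ → k) (x : MvPolynomial σ k) (w n : ℕ)
    (hx : x ∈ mI ξ ^ w ⊔ I) :
    lF I ξ (n + w) ≤ lF (I ⊔ Ideal.span {x}) ξ (n + w) + lF I ξ n := by
  have h1 := Pool.H76.LR.LI_theta ξ x hx (n + w)
  rw [Nat.add_sub_cancel] at h1
  exact h1

/-- `h(D+δ) ≥ h'(D+δ) + h(D)` and `liminf h'/D^r ≥ d'` imply `liminf h/D^(r+1) ≥ d'/(δ (r+1))`. -/
theorem lowB_sum {h h' : ℕ → ℕ} {δ r : ℕ} {d : ℝ} (hδ : 1 ≤ δ) (hd : 0 ≤ d)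
    (hmono : Monotone h) (hrec : ∀ D, h' (D + δ) + h D ≤ h (D + δ)) (hlow : LowB h' r d) :
    LowB h (r + 1) (d / (δ * ((r : ℝ) + 1))) := by
  have hle : ∀ D, δ ≤ D → h' D + h (D - δ) ≤ h D := by
    intro D hD
    have h1 := hrec (D - δ)
    rwa [Nat.sub_add_cancel hD] at h1
  have hδ' : (0 : ℝ) < (δ : ℝ) := by exact_mod_cast hδ
  have hs' : (0 : ℝ) < (r : ℝ) + 1 := by positivity
  intro ε hε
  set c0 := d / (δ * ((r : ℝ) + 1)) with hc0
  set c := max (c0 - ε / 2) 0 with hc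
  have hc0' : 0 ≤ c := le_max_right _ _
  have hlow' : ∀ᶠ D : ℕ in atTop, c * ((r : ℝ) + 1) * (δ : ℝ) * (D : ℝ) ^ r ≤ (h' D : ℝ) := by
    rcases le_or_gt (c0 - ε / 2) 0 with hneg | hpos
    · rw [hc, max_eq_right hneg]
      refine Eventually.of_forall fun D => ?_
      simp
    · have e1 := hlow (((r : ℝ) + 1) * δ * (ε / 2)) (by positivity)
      filter_upwards [e1] with D hD
      refine le_trans (le_of_eq ?_) hD
      rw [hc, max_eq_left hpos.le, hc0]
      field_simp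
  obtain ⟨D0, hD0⟩ := eventually_atTop.1 hlow'
  have h3 := Pool.H76.LR.lower_sum (h := h) (h' := h') (δ := δ) (s := r) (D0 := D0) hc0' hδ hle
    (fun D hD => hD0 D hD)
  have e2 := Pool.H76.LR.ev_lower (c := c) (a := (D0 : ℝ) + (δ : ℝ)) (r + 1)
    (show (0 : ℝ) < ε / 2 by linarith)
  filter_upwards [e2, eventually_ge_atTop (D0 + δ)] with D hD1 hD2
  have h4 := h3 D
  have h5 : 0 ≤ (D : ℝ) - ((D0 : ℝ) + (δ : ℝ)) := by
    have : ((D0 + δ : ℕ) : ℝ) ≤ (D : ℝ) := by exact_mod_cast hD2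
    push_cast at this
    linarith
  rw [max_eq_left h5] at h4
  have h6 : c0 - ε ≤ c - ε / 2 := by
    have := le_max_left (c0 - ε / 2) 0
    linarith
  have h7 : (0 : ℝ) ≤ (D : ℝ) ^ (r + 1) := by positivity
  nlinarith

/-- `L(n+w) ≤ L'(n+w) + L(n)` and `limsup L'/n^r ≤ u` imply `limsup L/n^(r+1) ≤ u/(w (r+1))`. -/
theorem uppB_sum {L L' : ℕ → ℕ} {w r : ℕ} {u : ℝ} (hw : 1 ≤ w) (hu : 0 ≤ u)
    (hmono : Monotone L) (hrec : ∀ n, L (n + w) ≤ L' (n + w) + L n) (hupp : UppB L' r u) :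
    UppB L (r + 1) (u / (w * ((r : ℝ) + 1))) := by
  have hw' : (0 : ℝ) < (w : ℝ) := by exact_mod_cast hw
  have hs' : (0 : ℝ) < (r : ℝ) + 1 := by positivity
  intro ε hε
  set c0 := u / (w * ((r : ℝ) + 1)) with hc0
  have hc00 : 0 ≤ c0 := by positivity
  have hup : ∀ᶠ K : ℕ in atTop,
      (L' K : ℝ) ≤ (c0 + ε / 2) * ((r : ℝ) + 1) * (w : ℝ) * (K : ℝ) ^ r := by
    have e1 := hupp (((r : ℝ) + 1) * w * (ε / 2)) (by positivity)
    filter_upwards [e1] with K hK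
    refine hK.trans (le_of_eq ?_)
    rw [hc0]
    field_simp
  obtain ⟨K1, hK1⟩ := eventually_atTop.1 hup
  set K0 := max K1 w with hK0
  have hM : ∀ K, K < K0 → (L K : ℝ) ≤ (L K0 : ℝ) := fun K hK => by
    exact_mod_cast hmono hK.le
  have h3 : ∀ K : ℕ, (L K : ℝ) ≤ (c0 + ε / 2) * ((K : ℝ) + (w : ℝ)) ^ (r + 1) + (L K0 : ℝ) := by
    have hM0 : (0 : ℝ) ≤ (L K0 : ℝ) := Nat.cast_nonneg _
    have hc : 0 ≤ c0 + ε / 2 := by positivity
    intro K
    induction K using Nat.strong_induction_on with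
    | _ K ih =>
      have hK0' : (0 : ℝ) ≤ (K : ℝ) := Nat.cast_nonneg _
      rcases lt_or_ge K K0 with hK | hK
      · have h1 := hM K hK
        have h2 : 0 ≤ (c0 + ε / 2) * ((K : ℝ) + (w : ℝ)) ^ (r + 1) := by positivity
        linarith
      · have hKw : w ≤ K := (le_max_right _ _).trans hK
        have hKK : K1 ≤ K := (le_max_left _ _).trans hK
        have h1 := hrec (K - w)
        rw [Nat.sub_add_cancel hKw] at h1
        have h2 : (L K : ℝ) ≤ (L' K : ℝ) + (L (K - w) : ℝ) := by exact_mod_cast h1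
        have h4 := hK1 K hKK
        have h5 := ih (K - w) (by omega)
        have hcast : ((K - w : ℕ) : ℝ) + (w : ℝ) = (K : ℝ) := by
          rw [Nat.cast_sub hKw]; ring
        rw [hcast] at h5
        have hb : (K : ℝ) ^ (r + 1) + ((r : ℝ) + 1) * (w : ℝ) * (K : ℝ) ^ r ≤
            ((K : ℝ) + (w : ℝ)) ^ (r + 1) := by
          have h6 : ∀ x : ℝ, 0 ≤ x → ∀ n : ℕ,
              x ^ (n + 1) + ((n : ℝ) + 1) * (w : ℝ) * x ^ n ≤ (x + (w : ℝ)) ^ (n + 1) := by
            intro x hx n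
            induction n with
            | zero => simp
            | succ n ihn =>
              have e1 : (x + (w : ℝ)) ^ (n + 1 + 1) = (x + w) * (x + (w : ℝ)) ^ (n + 1) := by ring
              have e2 : (x + w) * (x ^ (n + 1) + ((n : ℝ) + 1) * (w : ℝ) * x ^ n) ≤
                  (x + w) * (x + (w : ℝ)) ^ (n + 1) :=
                mul_le_mul_of_nonneg_left ihn (by positivity)
              have e3 : 0 ≤ ((n : ℝ) + 1) * (w : ℝ) * (w : ℝ) * x ^ n := by positivity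
              have e4 : (x + w) * (x ^ (n + 1) + ((n : ℝ) + 1) * (w : ℝ) * x ^ n) =
                  x ^ (n + 1 + 1) + ((n : ℝ) + 1 + 1) * (w : ℝ) * x ^ (n + 1) +
                  ((n : ℝ) + 1) * (w : ℝ) * (w : ℝ) * x ^ n := by ring
              rw [e1]
              push_cast
              linarith
          exact h6 K hK0' r
        have hcb : (c0 + ε / 2) * ((K : ℝ) ^ (r + 1) + ((r : ℝ) + 1) * (w : ℝ) * (K : ℝ) ^ r) ≤
            (c0 + ε / 2) * ((K : ℝ) + (w : ℝ)) ^ (r + 1) := mul_le_mul_of_nonneg_left hb hc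
        nlinarith
  have e2 := Pool.H76.LR.ev_upper (c := c0 + ε / 2) (a := (w : ℝ)) (M := (L K0 : ℝ)) r
    (show (0 : ℝ) < ε / 2 by linarith)
  filter_upwards [e2] with K hK
  refine (h3 K).trans (hK.trans (le_of_eq ?_))
  ring

/-- LEMMA R -/
theorem lemmaR (ξ : σ → k) (l : List (MvPolynomial σ k × ℕ × ℕ)) (J : Ideal (MvPolynomial σ k))
    (hl : Chn ξ J l) (r : ℕ) (I : Ideal (MvPolynomial σ k)) (hJ : J ≤ I)
    (hb : BigO (hF I) r) :
    ∃ d : ℝ, 0 ≤ d ∧ LowB (hF I) r d ∧ UppB (lF I ξ) r (rhoL (l.map Prod.snd) r * d) := by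
  have hadm : ∀ (l : List (MvPolynomial σ k × ℕ × ℕ)) (J : Ideal (MvPolynomial σ k)),
      Chn ξ J l → Pool.H76.LR.Adm ξ J l := by
    intro l
    induction l with
    | nil => exact fun J h => h
    | cons x l ih =>
      obtain ⟨θ, δ, w⟩ := x
      intro J h
      exact ⟨h.2.2.2.1, h.2.2.1, h.1, h.2.1, ih _ h.2.2.2.2⟩
  have hrho : ∀ (l : List (MvPolynomial σ k × ℕ × ℕ)) (r : ℕ),
      Pool.H76.LR.rho l r = rhoL (l.map Prod.snd) r := by
    intro l
    induction l with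
    | nil => intro r; cases r <;> rfl
    | cons x l ih =>
      obtain ⟨θ, δ, w⟩ := x
      intro r
      cases r with
      | zero => rfl
      | succ r =>
        simp only [List.map_cons, Pool.H76.LR.rho, rhoL, ih]
  obtain ⟨C, hC⟩ := hb
  obtain ⟨d, hd, h1, h2⟩ := Pool.H76.LR.lemma_R ξ l J (hadm l J hl) I hJ r C hC
  refine ⟨d, hd, h1, ?_⟩
  rw [← hrho]
  exact h2

end Pool.Agent.H62.N6
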