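import Pool.Agent.H62.N6.BlkD
import Pool.Agent.H62.N6.BlkL
import Pool.Agent.H62.N6.BlkG
import Pool.Agent.H19.N6.Fix

set_option autoImplicit false

/-! # BLOCK T (helper19): REC, Theorem T. -/

open MvPolynomial Filter

open scoped BigOperators

namespace Pool.Agent.H62.N6

open Pool.Agent.H19.N6

/-- REC -/
theorem rec_lemma {U : Ultrafilter ℕ} {B : ℕ → ℕ} (hB : Tendsto B (U : Filter ℕ) atTop)
    {σ : Type} [Fintype σ] {K : Type} [Field K] {φ : (ℕ → ℤ) →+* K} (hK : IsK U φ)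
    (ε : σ → ℤ) {f : ℕ} (h : Fin f → σ → ℤ) (N : MvPolynomial σ ℤ)
    (hN : ∀ (k : Type) [Field k] [CharZero k] (ξ : σ → k), Sol ε ξ →
      aeval ξ N ≠ 0 → Cone ε ξ h)
    (m : ℕ) (P : Ideal (MvPolynomial σ K)) (hprime : P.IsPrime) (hdim : HasDim P m)
    (hP : ∀ n, 1 ≤ n → n ≤ 4 → pF K ε n ∈ P) (u : Fin f → K)
    (hu : ∀ l, lin K (h l) - C (u l) ∈ P)
    (S : ℕ → Finset (σ → ℤ)) (hV : Van U φ S P) (hbox : InBox B S)
    (hN0 : ∀ j, ∀ z ∈ S j, eval z N ≠ 0)
    (L : List (PC σ)) (hL : ∀ c ∈ L, c.Ok U B S) (hdis : Dis U L)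
    (hNp : ∀ c ∈ L, ∀ᶠ j in (U : Filter ℕ), ∀ z ∈ S j, ¬ (c.p j : ℤ) ∣ eval z N) :
    Expo U B S (gK m (L.map PC.β).sum) :=
  rec_proof hB hK ε h N hN u m P hprime hdim hP hu S hV hbox hN0 L hL hdis hNp

lemma gK_one : gK 1 0 = 0.75 := by
  norm_num [gK, Finset.sum_range_succ, Kap]

lemma gK_two : gK 2 0 = 1.4572 := by
  norm_num [gK, Finset.sum_range_succ, Kap]

lemma gK_three : gK 3 0 = 2.1506 := by
  norm_num [gK, Finset.sum_range_succ, Kap]

lemma gK_four : gK 4 0 = 2.7896 := by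
  norm_num [gK, Finset.sum_range_succ, Kap]

lemma gK_five : gK 5 0 = 3.398 := by
  norm_num [gK, Finset.sum_range_succ, Kap]

lemma gK_six : gK 6 0 = 3.9868 := by
  norm_num [gK, Finset.sum_range_succ, Kap]

lemma gK_seven : gK 7 0 = 4.4868 := by
  norm_num [gK, Finset.sum_range_succ, Kap]

lemma gK_eight : gK 8 0 = 4.9868 := by
  norm_num [gK, Finset.sum_range_succ, Kap]

/-- the exponents -/
lemma expo_cases {D f : ℕ} (h6 : 6 ≤ D) (h8 : D ≤ 8) (hf : D + f ≤ 10) (c : ℕ) (hc : c ≤ f)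
    (_ : c ≤ D) : (c : ℝ) + gK (D - c) 0 ≤ 5.99 := by
  have hc4 : c ≤ 4 := by omega
  interval_cases D <;> interval_cases c <;> first
    | omega
    | (norm_num only [gK_one, gK_two, gK_three, gK_four, gK_five, gK_six, gK_seven, gK_eight])

/-- Theorem T for prime ideals -/
theorem thmT_prime {U : Ultrafilter ℕ} {B : ℕ → ℕ} (hB : Tendsto B (U : Filter ℕ) atTop)
    {K : Type} [Field K] {φ : (ℕ → ℤ) →+* K} (hK : IsK U φ) :
    ∀ P : Ideal (MvPolynomial (Fin 12) K), P.IsPrime → (∀ n, 1 ≤ n → n ≤ 4 → pF K sg n ∈ P) →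
    ∀ S : ℕ → Finset (Fin 12 → ℤ), Van U φ S P → InBox B S →
    (∀ j, ∀ z ∈ S j, ∀ i i', sg i ≠ sg i' → z i ≠ z i') → Expo U B S 5.99 := by
  classical
  intro P
  induction P using WellFoundedGT.induction with
  | _ P ih =>
  intro hP heq S hV hbox hcross
  obtain ⟨m, hm⟩ := exists_hasDim P hP.ne_top
  by_cases hm6 : m < 6
  · refine Pool.Agent.H19.N6.expo_mono hB (expo_of_bigO hB hK hm.1 hV hbox) ?_
    have : (m : ℝ) ≤ 5 := by exact_mod_cast (by omega : m ≤ 5)
    linarith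
  by_cases hemp : ∀ᶠ j in (U : Filter ℕ), S j = ∅
  · exact Pool.Agent.H19.N6.expo_empty hemp
  obtain ⟨z0, hz0⟩ := exists_seq hemp
  have hx : ∀ i j, sg i ≠ sg j → (X i - X j : MvPolynomial (Fin 12) K) ∉ P := by
    intro i i' hii hmem
    have h1 := hV _ hmem z0 hz0
    rw [map_sub, eval_X, eval_X] at h1
    have h2 : φ (fun j => z0 j i - z0 j i') = 0 := by
      have h3 : (fun j => z0 j i - z0 j i') = (fun j => z0 j i) - fun j => z0 j i' := rfl
      rw [h3, map_sub]
      exact h1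
    rw [hK.ker] at h2
    obtain ⟨j, hj1, hj2⟩ := (h2.and hz0).exists
    exact hcross j _ hj2 i i' hii (by linarith)
  haveI := hK.charZero
  obtain ⟨hm8, f, hmf, h, N, hNP, hN⟩ := geo P hP heq hx hm (by omega)
  refine Pool.Agent.H19.N6.expo_union hB (S' := fun j => (S j).filter fun z => eval z N = 0)
    (S'' := fun j => (S j).filter fun z => ¬ eval z N = 0) (fun j z hz => ?_) ?_ ?_
  · by_cases h0 : eval z N = 0
    · exact Or.inl (Finset.mem_filter.mpr ⟨hz, h0⟩)
    · exact Or.inr (Finset.mem_filter.mpr ⟨hz, h0⟩)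
  · -- the part where N vanishes lies on a smaller variety
    have hsub : ∀ j, ((S j).filter fun z => eval z N = 0) ⊆ S j :=
      fun j => Finset.filter_subset _ _
    refine prime_ind hK (fun S => Expo U B S 5.99) (fun S hS => Pool.Agent.H19.N6.expo_empty hS)
      (fun S S' S'' h1 h2 h3 => Pool.Agent.H19.N6.expo_union hB h1 h2 h3)
      (P ⊔ Ideal.span {MvPolynomial.map (Int.castRingHom K) N}) _
      (van_sup_span (van_mono hV (Eventually.of_forall hsub)) ?_) ?_
    · intro z hz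
      rw [eval_map]
      have h1 : eval₂ (Int.castRingHom K) (ptS φ z) N = φ (fun j => eval (z j) N) := by
        have h2 : (fun j => eval (z j) N) =
            eval₂ (Int.castRingHom (ℕ → ℤ)) (fun i j => z j i) N := by
          funext j
          have h3 := eval₂_comp_left (Pi.evalRingHom (fun _ : ℕ => ℤ) j)
            (Int.castRingHom (ℕ → ℤ)) (fun i j => z j i) N
          have h4 : (Pi.evalRingHom (fun _ : ℕ => ℤ) j).comp (Int.castRingHom (ℕ → ℤ)) =
              RingHom.id ℤ := RingHom.ext_int _ _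
          rw [h4] at h3
          exact h3.symm
        rw [h2]
        have h5 := eval₂_comp_left φ (Int.castRingHom (ℕ → ℤ)) (fun i j => z j i) N
        have h6 : φ.comp (Int.castRingHom (ℕ → ℤ)) = Int.castRingHom K := RingHom.ext_int _ _
        rw [h6] at h5
        exact h5.symm
      rw [h1, hK.ker]
      filter_upwards [hz] with j hj using (Finset.mem_filter.mp hj).2
    · intro P' hP' hle S' hS' hV'
      have hPP' : P < P' := by
        refine lt_of_le_of_ne (le_sup_left.trans hle) ?_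
        rintro rfl
        exact hNP (hle (Ideal.mem_sup_right (Ideal.mem_span_singleton_self _)))
      exact ih P' hPP' hP' (fun n h1 h4 => hPP'.le (heq n h1 h4)) S' hV'
        (fun j z hz => hbox j z (hsub j (hS' j hz)))
        (fun j z hz => hcross j z (hsub j (hS' j hz)))
  · -- the main part
    have hsub : ∀ j, ((S j).filter fun z => ¬ eval z N = 0) ⊆ S j :=
      fun j => Finset.filter_subset _ _
    have h1 := fix_forms hB hK sg h N hN 5.99 m
      (fun c hc hcm => expo_cases (by omega) hm8 hmf c hc hcm) f 0 (by omega) (fun _ => 0) P hP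
      heq (fun l hl => absurd hl (Nat.not_lt_zero _)) 0 le_rfl m hm (by omega)
      (fun j => (S j).filter fun z => ¬ eval z N = 0)
      (van_mono hV (Eventually.of_forall hsub)) (fun j z hz => hbox j z (hsub j hz))
      (fun j z hz => (Finset.mem_filter.mp hz).2)
    simpa using h1

/-- THEOREM T -/
theorem thmT {U : Ultrafilter ℕ} {B : ℕ → ℕ} (hB : Tendsto B (U : Filter ℕ) atTop)
    {K : Type} [Field K] {φ : (ℕ → ℤ) →+* K} (hK : IsK U φ)
    (I : Ideal (MvPolynomial (Fin 12) K)) (hI : ∀ n, 1 ≤ n → n ≤ 4 → pF K sg n ∈ I)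
    (S : ℕ → Finset (Fin 12 → ℤ)) (hV : Van U φ S I) (hbox : InBox B S)
    (hcross : ∀ j, ∀ z ∈ S j, ∀ i i', sg i ≠ sg i' → z i ≠ z i') :
    Expo U B S 5.99 := by
  refine prime_ind hK (fun S => Expo U B S 5.99) (fun S hS => Pool.Agent.H19.N6.expo_empty hS)
    (fun S S' S'' h1 h2 h3 => Pool.Agent.H19.N6.expo_union hB h1 h2 h3) I S hV ?_
  intro P hP hle S' hS' hV'
  exact thmT_prime hB hK P hP (fun n h1 h4 => hle (hI n h1 h4)) S' hV'
    (fun j z hz => hbox j z (hS' j hz)) (fun j z hz => hcross j z (hS' j hz))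

end Pool.Agent.H62.N6
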