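import Mathlib

set_option autoImplicit false

/-! # MP_4f0605_nt (S16907): definitions.  Paper: /team-store/helper62_n64_paper.md

`k`, `K` fields, `σ` the finite index type of the coordinates (later `Fin 12`), `R = k[z_i : i ∈ σ] = MvPolynomial σ k`. -/

open MvPolynomial Filter

open scoped BigOperators

namespace Pool.Agent.H62.N6

noncomputable section

/-! ### Hilbert functions (paper, section 1) -/

section HF

variable {k : Type} [Field k] {σ : Type}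

/-- `h_I(D)`: dimension of the image of the polynomials of total degree at most `D` in `R/I`. -/
def hF (I : Ideal (MvPolynomial σ k)) (D : ℕ) : ℕ :=
  Module.finrank k
    ((restrictTotalDegree σ k D).map (Ideal.Quotient.mkₐ k I).toLinearMap)

/-- The maximal ideal of the point `ξ`. -/
def mI (ξ : σ → k) : Ideal (MvPolynomial σ k) :=
  Ideal.span (Set.range fun i => X i - C (ξ i))

/-- `L_{I,ξ}(n) = dim R/(I + m_ξ^n)`. -/
def lF (I : Ideal (MvPolynomial σ k)) (ξ : σ → k) (n : ℕ) : ℕ :=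
  Module.finrank k (MvPolynomial σ k ⧸ (I ⊔ mI ξ ^ n))

end HF

/-- `liminf h(n)/n^r ≥ d`. -/
def LowB (h : ℕ → ℕ) (r : ℕ) (d : ℝ) : Prop :=
  ∀ e : ℝ, 0 < e → ∀ᶠ n : ℕ in atTop, (d - e) * (n : ℝ) ^ r ≤ (h n : ℝ)

/-- `limsup h(n)/n^r ≤ d`. -/
def UppB (h : ℕ → ℕ) (r : ℕ) (d : ℝ) : Prop :=
  ∀ e : ℝ, 0 < e → ∀ᶠ n : ℕ in atTop, (h n : ℝ) ≤ (d + e) * (n : ℝ) ^ r

/-- `h(n) = O((n+1)^r)`. -/
def BigO (h : ℕ → ℕ) (r : ℕ) : Prop :=
  ∃ C : ℝ, ∀ n : ℕ, (h n : ℝ) ≤ C * ((n : ℝ) + 1) ^ r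

/-- `liminf h(n)/n^r = c`. -/
def IsLim (h : ℕ → ℕ) (r : ℕ) (c : ℝ) : Prop :=
  LowB h r c ∧ ∀ e : ℝ, 0 < e → ∃ᶠ n : ℕ in atTop, (h n : ℝ) ≤ (c + e) * (n : ℝ) ^ r

/-- The ideal `I` has dimension `s`: `c (D+1)^s ≤ h_I(D) ≤ C (D+1)^s`. -/
def HasDim {k : Type} [Field k] {σ : Type} (I : Ideal (MvPolynomial σ k)) (s : ℕ) : Prop :=
  BigO (hF I) s ∧ ∃ c : ℝ, 0 < c ∧ ∀ D : ℕ, c * ((D : ℝ) + 1) ^ s ≤ (hF I D : ℝ)

/-! ### Lemma R -/

section LemmaR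

variable {k : Type} [Field k] {σ : Type}

/-- `Chn ξ J l`: the hypotheses of Lemma R for the list `l` of triples `(θ, δ, w)` over the ideal `J`:
`deg θ ≤ δ`, `θ ∈ m_ξ^w + J`, then the same for the rest of the list over `J + (θ)`; in the end `m_ξ^M ⊆ J`. -/
def Chn (ξ : σ → k) : Ideal (MvPolynomial σ k) → List (MvPolynomial σ k × ℕ × ℕ) → Prop
  | J, [] => ∃ M : ℕ, mI ξ ^ M ≤ J
  | J, (θ, δ, w) :: l => 1 ≤ δ ∧ 1 ≤ w ∧ θ.totalDegree ≤ δ ∧ θ ∈ mI ξ ^ w ⊔ J ∧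
      Chn ξ (J ⊔ Ideal.span {θ}) l

end LemmaR

/-- `ρ_r` = maximal product `∏ δ/w` over the sublists of length `r`. -/
def rhoL : List (ℕ × ℕ) → ℕ → ℝ
  | _, 0 => 1
  | [], _ + 1 => 0
  | (δ, w) :: l, r + 1 => max (rhoL l (r + 1)) ((δ : ℝ) / w * rhoL l r)

/-- The constants `K_r ≥ ρ_r^(1/r)` for the list `(1,2),(1,2),(1,2),(2,3),(2,3),(3,4)`. -/
def Kap : ℕ → ℝ
  | 0 => 1
  | 1 => 0.75
  | 2 => 0.7072
  | 3 => 0.6934
  | 4 => 0.6390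
  | 5 => 0.6084
  | 6 => 0.5888
  | _ => 0.5

/-- `g(m, κ) = ∑_{i ≤ m} max (K_i - κ, 0)`. -/
def gK (m : ℕ) (κ : ℝ) : ℝ := ∑ i ∈ Finset.range m, max (Kap (i + 1) - κ) 0

/-! ### The system -/

section Sys

variable {R : Type} [CommRing R] {σ : Type} [Fintype σ]

/-- `F_n = ∑ ε_i z_i^n`. -/
def pF (R : Type) [CommRing R] (ε : σ → ℤ) (n : ℕ) : MvPolynomial σ R :=
  ∑ i, C (ε i : R) * X i ^ n

/-- The linear form with integer coefficients `c`. -/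
def lin (R : Type) [CommRing R] (c : σ → ℤ) : MvPolynomial σ R :=
  ∑ i, C (c i : R) * X i

/-- The polar form `p_{a,b}(v) = ∑ ε_i ξ_i^a v_i^b` (homogeneous of degree `b` in the variables `v`). -/
def pab (ε : σ → ℤ) (ξ : σ → R) (a b : ℕ) : MvPolynomial σ R :=
  ∑ i, C ((ε i : R) * ξ i ^ a) * X i ^ b

/-- The ideal of the cone: all `p_{a,b}` with `b ≥ 1`, `a + b ≤ 4`, and the linear forms `h_l`. -/
def coneI (ε : σ → ℤ) (ξ : σ → R) {f : ℕ} (h : Fin f → σ → ℤ) : Ideal (MvPolynomial σ R) :=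
  Ideal.span ({F | ∃ a b : ℕ, 1 ≤ b ∧ a + b ≤ 4 ∧ F = pab ε ξ a b} ∪
    Set.range fun l => lin R (h l))

/-- (CONE): the forms `p_{a,b}` and `h_l` have only the zero `v = 0`: a power of `(v)` lies in their ideal. -/
def Cone (ε : σ → ℤ) (ξ : σ → R) {f : ℕ} (h : Fin f → σ → ℤ) : Prop :=
  ∃ M : ℕ, Ideal.span (Set.range (X : σ → MvPolynomial σ R)) ^ M ≤ coneI ε ξ h

/-- `ξ` is a solution of the system. -/
def Sol (ε : σ → ℤ) (ξ : σ → R) : Prop := ∀ n : ℕ, 1 ≤ n → n ≤ 4 → ∑ i, (ε i : R) * ξ i ^ n = 0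

end Sys

/-! ### The nonstandard frame (paper, section 2) -/

/-- `φ` from the ring of integer sequences to the field `K` is the map to the ultrapower of `ℚ`. -/
structure IsK (U : Ultrafilter ℕ) {K : Type} [Field K] (φ : (ℕ → ℤ) →+* K) : Prop where
  ker : ∀ a, φ a = 0 ↔ ∀ᶠ j in (U : Filter ℕ), a j = 0
  frac : ∀ x : K, ∃ a b : ℕ → ℤ, φ b ≠ 0 ∧ x * φ b = φ a

/-- `ψ` from the ring of integer sequences to the field `k` is the reduction modulo the sequence `p` of primes. -/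
structure IsP (U : Ultrafilter ℕ) (p : ℕ → ℕ) {k : Type} [Field k] (ψ : (ℕ → ℤ) →+* k) :
    Prop where
  ker : ∀ a, ψ a = 0 ↔ ∀ᶠ j in (U : Filter ℕ), (p j : ℤ) ∣ a j
  surj : Function.Surjective ψ

section Frame

variable {σ : Type}

/-- The image of a sequence of integer points. -/
def ptS {A : Type} [CommRing A] (φ : (ℕ → ℤ) →+* A) (z : ℕ → σ → ℤ) : σ → A :=
  fun i => φ fun j => z j i

/-- The polynomial `F` vanishes on the internal set `S`. -/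
def VanF (U : Ultrafilter ℕ) {K : Type} [Field K] (φ : (ℕ → ℤ) →+* K)
    (S : ℕ → Finset (σ → ℤ)) (F : MvPolynomial σ K) : Prop :=
  ∀ z : ℕ → σ → ℤ, (∀ᶠ j in (U : Filter ℕ), z j ∈ S j) → eval (ptS φ z) F = 0

/-- `S ⊆ V(P)`. -/
def Van (U : Ultrafilter ℕ) {K : Type} [Field K] (φ : (ℕ → ℤ) →+* K)
    (S : ℕ → Finset (σ → ℤ)) (P : Ideal (MvPolynomial σ K)) : Prop :=
  ∀ F ∈ P, VanF U φ S F

/-- `card (S j) ≤ (B j)^(a+e)` for all `e > 0` and `U`-many `j`. -/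
def Expo (U : Ultrafilter ℕ) (B : ℕ → ℕ) (S : ℕ → Finset (σ → ℤ)) (a : ℝ) : Prop :=
  ∀ e : ℝ, 0 < e → ∀ᶠ j in (U : Filter ℕ), ((S j).card : ℝ) ≤ (B j : ℝ) ^ (a + e)

/-- `S j ⊆ [0, B j]^σ`. -/
def InBox (B : ℕ → ℕ) (S : ℕ → Finset (σ → ℤ)) : Prop :=
  ∀ j, ∀ z ∈ S j, ∀ i, 0 ≤ z i ∧ z i ≤ (B j : ℤ)

/-- The reduction `Pbar` of the ideal `P` modulo the prime sequence. -/
def redI {K k : Type} [Field K] [Field k] (φ : (ℕ → ℤ) →+* K) (ψ : (ℕ → ℤ) →+* k)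
    (P : Ideal (MvPolynomial σ K)) : Ideal (MvPolynomial σ k) :=
  (P.comap (MvPolynomial.map φ)).map (MvPolynomial.map ψ)

/-- A sequence of primes with a residue class and a size exponent. -/
structure PC (σ : Type) where
  p : ℕ → ℕ
  ξ : ℕ → σ → ℤ
  β : ℝ

/-- The primes have size at least `B^β` and all points of `S` lie in the class of `ξ` modulo `p`. -/
structure PC.Ok (U : Ultrafilter ℕ) (B : ℕ → ℕ) (S : ℕ → Finset (σ → ℤ)) (c : PC σ) :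
    Prop where
  pos : 0 < c.β
  prime : ∀ᶠ j in (U : Filter ℕ), (c.p j).Prime
  size : ∀ᶠ j in (U : Filter ℕ), (B j : ℝ) ^ c.β ≤ (c.p j : ℝ)
  cls : ∀ᶠ j in (U : Filter ℕ), ∀ z ∈ S j, ∀ i, (c.p j : ℤ) ∣ z i - c.ξ j i

/-- The sequences of primes are different. -/
def Dis (U : Ultrafilter ℕ) (L : List (PC σ)) : Prop :=
  L.Pairwise fun c c' => ∀ᶠ j in (U : Filter ℕ), c.p j ≠ c'.p j

/-- Local bound at the class: `limsup L_{Pbar,ξ}(n)/n^m ≤ ρ liminf h_P(D)/D^m`. -/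
def LocB (U : Ultrafilter ℕ) {K : Type} [Field K] (φ : (ℕ → ℤ) →+* K)
    (P : Ideal (MvPolynomial σ K)) (m : ℕ) (ρ : ℝ) (c : PC σ) : Prop :=
  ∃ (k : Type) (_ : Field k) (ψ : (ℕ → ℤ) →+* k), IsP U c.p ψ ∧
    ∀ d : ℝ, IsLim (hF P) m d → UppB (lF (redI φ ψ P) (ptS ψ c.ξ)) m (ρ * d)

end Frame

/-! ### The case of 6 + 6 variables -/

/-- signs: `+1` for `z_0..z_5` (the `x`), `-1` for `z_6..z_11` (the `y`). -/
def sg (i : Fin 12) : ℤ := if (i : ℕ) < 6 then 1 else -1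

end

end Pool.Agent.H62.N6
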