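import Pool.Agent.H19.N6.HT
import Pool.Agent.H62.N64F.Fin5
import Pool.Agent.H19.N64.A6

set_option autoImplicit false

/-! # The final assembly (helper19). -/

open MvPolynomial Filter Topology

open scoped BigOperators

namespace Pool.Agent.H62.N6

open Pool.Agent.H19.N64

theorem h6 : ∃ C a : ℝ, a < 6 ∧ ∀ B : ℕ, 1 ≤ B → ((adF 6 B).card : ℝ) ≤ C * (B : ℝ) ^ a :=
  Pool.Agent.H19.N6.h6

theorem frozen : ∃ c : ℝ, 0 < c ∧
    Tendsto
      (fun B : ℕ =>
        ((Finset.filter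
            (fun p : (Fin 6 → ℕ) × (Fin 6 → ℕ) =>
              ∀ j ∈ Finset.Icc 1 4, ∑ i, p.1 i ^ j = ∑ i, p.2 i ^ j)
            ((Fintype.piFinset fun _ : Fin 6 => Finset.range (B + 1)) ×ˢ
              (Fintype.piFinset fun _ : Fin 6 => Finset.range (B + 1)))).card : ℝ)
          / (B : ℝ) ^ 6)
      atTop (𝓝 c) :=
  frozen_of_ad h6 Pool.Agent.H62.N64F.h5

end Pool.Agent.H62.N6
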